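import Mathlib
import Pool.Agent.MP_6cd9e0_an.H46.Main

namespace Pool.Agent.Results.MP_6cd9e0_an.NotPowerSeries

open Filter Topology

theorem result : ∃ f : ℤ → ℝ,
    (∀ (n : ℕ) (A : Matrix (Fin n) (Fin n) ℤ), (A.map (Int.cast : ℤ → ℝ)).PosSemidef →
      (A.map f).PosSemidef) ∧
    ¬ ∃ c : ℕ → ℝ, (∀ k, 0 ≤ c k) ∧ ∀ m : ℤ,
      Tendsto (fun N => ∑ k ∈ Finset.range N, c k * (m : ℝ) ^ k) atTop (𝓝 (f m)) :=
  Pool.Agent.MP_6cd9e0_an.H46.main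

end Pool.Agent.Results.MP_6cd9e0_an.NotPowerSeries
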